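import Pool.Agent.Work.MP_858761_dm.Defs

/-!
# K0: the intersection of two closed unbounded sets
-/

set_option autoImplicit false

open Set Cardinal

namespace Pool.Agent.Work.MP_858761_dm

theorem p_K0 : S_K0 := by
  intro δ hδ C D hC hD
  obtain ⟨hC1, hC2, hC3⟩ := hC
  obtain ⟨hD1, hD2, hD3⟩ := hD
  choose! c hc using hC2
  choose! d hd using hD2
  refine ⟨fun x hx => hC1 hx.1, fun β hβ => ?_, fun β hβ h0 h => ⟨?_, ?_⟩⟩
  · let y : ℕ → Ordinal.{0} := fun n => Nat.rec β (fun _ z => d (c z)) n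
    have y0 : y 0 = β := rfl
    have ys : ∀ n, y (n + 1) = d (c (y n)) := fun n => rfl
    have yδ : ∀ n, y n < δ := by
      intro n
      induction n with
      | zero => exact hβ
      | succ n ih =>
        rw [ys]
        have h1 : c (y n) < δ := hC1 (hc _ ih).1
        exact hD1 (hd _ h1).1
    have cδ : ∀ n, c (y n) < δ := fun n => hC1 (hc _ (yδ n)).1
    have y1 : ∀ n, y n < c (y n) := fun n => (hc _ (yδ n)).2
    have y2 : ∀ n, c (y n) < y (n + 1) := fun n => (hd _ (cδ n)).2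
    have yD : ∀ n, y (n + 1) ∈ D := fun n => (hd _ (cδ n)).1
    have hle : ∀ n, y n ≤ ⨆ m, y m := fun n => Ordinal.le_iSup y n
    have hlt : ⨆ m, y m < δ := by
      apply Ordinal.iSup_lt_of_lt_cof
      · simpa using hδ
      · exact yδ
    have hpos : (⨆ m, y m) ≠ 0 := by
      have h1 : (0 : Ordinal.{0}) < ⨆ m, y m :=
        lt_of_le_of_lt zero_le (((y1 0).trans (y2 0)).trans_le (hle 1))
      exact h1.ne'
    refine ⟨⨆ m, y m, ⟨?_, ?_⟩, ?_⟩
    · apply hC3 _ hlt hpos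
      intro γ hγ
      obtain ⟨n, hn⟩ := (Ordinal.lt_iSup_iff (f := y)).1 hγ
      exact ⟨c (y n), (hc _ (yδ n)).1, hn.trans (y1 n), (y2 n).trans_le (hle (n + 1))⟩
    · apply hD3 _ hlt hpos
      intro γ hγ
      obtain ⟨n, hn⟩ := (Ordinal.lt_iSup_iff (f := y)).1 hγ
      exact ⟨y (n + 1), yD n, hn.trans ((y1 n).trans (y2 n)),
        ((y1 (n + 1)).trans (y2 (n + 1))).trans_le (hle (n + 2))⟩
    · rw [← y0]
      exact ((y1 0).trans (y2 0)).trans_le (hle 1)
  · apply hC3 β hβ h0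
    intro γ hγ
    obtain ⟨x, hx, h1, h2⟩ := h γ hγ
    exact ⟨x, hx.1, h1, h2⟩
  · apply hD3 β hβ h0
    intro γ hγ
    obtain ⟨x, hx, h1, h2⟩ := h γ hγ
    exact ⟨x, hx.2, h1, h2⟩

end Pool.Agent.Work.MP_858761_dm
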