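import Pool.Agent.Work.MP_858761_dm.Defs

/-!
# K1: a regressive function on a stationary set is bounded on an unbounded set
-/

set_option autoImplicit false

open Set Cardinal

namespace Pool.Agent.Work.MP_858761_dm

theorem p_K1 (hC : S_KC) : S_K1 := by
  intro δ hδ T hT hstat h hreg
  by_contra hcon
  push Not at hcon
  -- hcon : ∀ ν < δ, ∃ β < δ, ∀ i ∈ T, β < i → ν ≤ h i
  have hne : ∀ ν < δ, (({β : Ordinal.{0} | ∀ i ∈ T, β < i → ν ≤ h i}) : Set Ordinal.{0}).Nonempty := by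
    intro ν hν
    obtain ⟨β, _, hβ⟩ := hcon ν hν
    exact ⟨β, hβ⟩
  let b : Ordinal.{0} → Ordinal.{0} := fun ν => sInf {β : Ordinal.{0} | ∀ i ∈ T, β < i → ν ≤ h i}
  have hb1 : ∀ ν < δ, b ν < δ := by
    intro ν hν
    obtain ⟨β, hβδ, hβ⟩ := hcon ν hν
    exact lt_of_le_of_lt (csInf_le' (show β ∈ {β : Ordinal.{0} | ∀ i ∈ T, β < i → ν ≤ h i} from hβ)) hβδ
  have hb2 : ∀ ν < δ, ∀ i ∈ T, b ν < i → ν ≤ h i := fun ν hν => csInf_mem (hne ν hν)
  have hmono : ∀ ν ν' : Ordinal.{0}, ν ≤ ν' → ν' < δ → b ν ≤ b ν' := by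
    intro ν ν' hle hν'
    refine csInf_le' ?_
    intro i hi hlt
    exact hle.trans (hb2 ν' hν' i hi hlt)
  obtain ⟨x, hxC, hxT⟩ := hstat _ (hC δ hδ b hb1 hmono)
  obtain ⟨hxδ, _, hlim, hcl⟩ := hxC
  have h1 : Order.succ (h x) < x := hlim.succ_lt (hreg x hxT)
  have h2 := hb2 _ (h1.trans hxδ) x hxT (hcl _ h1)
  exact absurd (Order.lt_succ (h x)) (not_lt.2 h2)

end Pool.Agent.Work.MP_858761_dm
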