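import Pool.Agent.Work.MP_858761_dm.Defs
import Pool.Agent.Work.MP_f3e7a9_gt.Base

set_option autoImplicit false

open Set Cardinal

namespace Pool.Agent.Work.MP_858761_dm

theorem XK11b.cofle {i : Ordinal.{0}} {c : Cardinal.{0}} {R : Set Ordinal.{0}}
    (hR : #R ≤ Cardinal.lift.{1} c) (hu : ∀ ν < i, ∃ x ∈ R, ν < x ∧ x < i) : i.cof ≤ c := by
  by_contra hlt
  rw [not_le] at hlt
  have hRi : #(R ∩ Iio i : Set Ordinal.{0}) < Cardinal.lift.{1} i.cof := by
    calc #(R ∩ Iio i : Set Ordinal.{0}) ≤ #R := Cardinal.mk_le_mk_of_subset inter_subset_left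
      _ ≤ Cardinal.lift.{1} c := hR
      _ < Cardinal.lift.{1} i.cof := Cardinal.lift_lt.2 hlt
  have hsm : Small.{0} (R ∩ Iio i : Set Ordinal.{0}) := by
    rw [small_iff_lift_mk_lt_univ]
    calc Cardinal.lift.{1, 1} #(R ∩ Iio i : Set Ordinal.{0}) = #(R ∩ Iio i : Set Ordinal.{0}) := by
          simp
      _ < Cardinal.lift.{1} i.cof := hRi
      _ < Cardinal.univ.{0, 1} := Cardinal.lift_lt_univ _
  have hs : (⨆ x : (R ∩ Iio i : Set Ordinal.{0}), ((x : Ordinal.{0}) + 1)) < i := by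
    apply Ordinal.lift_iSup_add_one_lt_of_lt_cof
    · rw [← Ordinal.lift_cof]
      simpa using hRi
    · exact fun x => x.2.2
  obtain ⟨x, hxR, h1, h2⟩ := hu _ hs
  have h3 : x < (⨆ x : (R ∩ Iio i : Set Ordinal.{0}), ((x : Ordinal.{0}) + 1)) :=
    Ordinal.lt_iSup_add_one (fun x : (R ∩ Iio i : Set Ordinal.{0}) => (x : Ordinal.{0}))
      ⟨x, hxR, h2⟩
  exact absurd h1 (not_lt.2 h3.le)

theorem p_K11b (hC : S_KC) (h2 : S_K2) : S_K11 := by
  rintro θ hsch γ hγθ ⟨κ, hκ, hstr, hcof⟩ hunc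
  obtain ⟨R, hR, hRc⟩ := h2 γ hunc
  have hne : ∀ ν < γ, ({x | x ∈ R ∧ ν < x} : Set Ordinal.{0}).Nonempty := by
    intro ν hν
    obtain ⟨x, hx, hx2⟩ := hR.2.1 ν hν
    exact ⟨x, hx, hx2⟩
  have hnx : ∀ ν < γ, sInf {x | x ∈ R ∧ ν < x} ∈ {x | x ∈ R ∧ ν < x} :=
    fun ν hν => csInf_mem (hne ν hν)
  have hb1 : ∀ ν < γ, ((2 : Cardinal.{0}) ^ ν.card).ord < γ := by
    intro ν hν
    rw [hκ] at hν ⊢
    exact Cardinal.ord_lt_ord.2 (hstr.isStrongPrelimit (Cardinal.lt_ord.1 hν))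
  have hb2 : γ.cof.ord < γ := by
    conv_rhs => rw [hκ]
    exact Cardinal.ord_lt_ord.2 hcof
  have hclub := hC γ hunc (fun ν => max (max (sInf {x | x ∈ R ∧ ν < x})
    ((2 : Cardinal.{0}) ^ ν.card).ord) γ.cof.ord)
    (fun ν hν => max_lt (max_lt (hR.1 (hnx ν hν).1) (hb1 ν hν)) hb2) (by
      intro ν ν' h1 h3
      refine max_le_max (max_le_max ?_ ?_) le_rfl
      · exact csInf_le' ⟨(hnx ν' h3).1, lt_of_le_of_lt h1 (hnx ν' h3).2⟩
      · exact Cardinal.ord_le_ord.2 (Cardinal.power_le_power_left two_ne_zero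
          (Ordinal.card_le_card h1)))
  refine ⟨κ, hκ, hstr, hunc, hcof, _, hclub, ?_⟩
  rintro i ⟨hiγ, hi0, hil, hib⟩
  have hG : ∀ α < i, ((2 : Cardinal.{0}) ^ α.card).ord < i := fun α hα =>
    lt_of_le_of_lt ((le_max_right _ _).trans (le_max_left _ _)) (hib α hα)
  have hcofi : γ.cof.ord < i := lt_of_le_of_lt (le_max_right _ _) (hib 0 (bot_lt_iff_ne_bot.2 hi0))
  have hord : i = i.card.ord := by
    by_contra hne
    have hlt : i.card.ord < i := lt_of_le_of_ne (Cardinal.ord_card_le i) (fun h => hne h.symm)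
    have h1 := hG _ hlt
    rw [Cardinal.card_ord] at h1
    have h2 := Ordinal.card_le_card h1.le
    rw [Cardinal.card_ord] at h2
    exact absurd (Cardinal.cantor i.card) (not_lt.2 h2)
  have hstr2 : i.card.IsStrongLimit := by
    refine ⟨?_, ?_⟩
    · intro h0
      rw [h0] at hord
      exact hi0 (by simpa using hord)
    · intro x hx
      have hx1 : x.ord < i := by
        rw [hord]
        exact Cardinal.ord_lt_ord.2 hx
      have h1 := hG _ hx1
      rw [Cardinal.card_ord, hord] at h1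
      exact Cardinal.ord_lt_ord.1 h1
  have hcofle : i.cof ≤ γ.cof := by
    refine XK11b.cofle hRc ?_
    intro ν hν
    have h1 := hnx ν (hν.trans hiγ)
    exact ⟨_, h1.1, h1.2, lt_of_le_of_lt ((le_max_left _ _).trans (le_max_left _ _)) (hib ν hν)⟩
  refine hsch i.card (Cardinal.lt_ord.1 (hiγ.trans hγθ)) hstr2 ?_
  rw [← hord]
  refine lt_of_le_of_lt hcofle ?_
  rw [hord] at hcofi
  exact Cardinal.ord_lt_ord.1 hcofi

end Pool.Agent.Work.MP_858761_dm
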