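import Pool.Agent.Work.MP_858761_dm.Defs

set_option autoImplicit false

open Set Cardinal

namespace Pool.Agent.Work.MP_858761_dm

namespace XK12

theorem mono {δ : Ordinal.{0}} {g f f' : Ordinal.{0} → Ordinal.{0}} (h : LtStar δ g f)
    (hf : ∀ i, f i ≤ f' i) : LtStar δ g f' := by
  rcases h with ⟨h1, a, ha, h2⟩ | ⟨h1, C, hC, h2⟩
  · exact Or.inl ⟨h1, a, ha, fun i hi hi' => (h2 i hi hi').trans_le (hf i)⟩
  · exact Or.inr ⟨h1, C, hC, fun i hi => (h2 i hi).trans_le (hf i)⟩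

theorem get {θ : Cardinal.{0}} {lam : Ordinal.{0} → Cardinal.{0}} {S : Set Ordinal.{0}}
    (hn : ¬ DiamondL θ lam S) (g : Ordinal.{0} → Ordinal.{0} → Ordinal.{0})
    (hg : ∀ γ ∈ S, ∀ i < γ, g γ i < (lam i).ord) :
    ∃ f : Ordinal.{0} → Ordinal.{0}, (∀ i < θ.ord, f i < (lam i).ord) ∧
      ∃ C : Set Ordinal.{0}, ClubIn θ.ord C ∧ ∀ x ∈ C, x ∈ S → LtStar x (g x) f := by
  by_contra hcon
  apply hn
  refine ⟨g, hg, fun f hf C hC => ?_⟩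
  by_contra hc
  apply hcon
  refine ⟨f, hf, C, hC, fun x hx hxS => ?_⟩
  by_contra hl
  exact hc ⟨x, hx, hxS, hl⟩

end XK12

open XK12 in
theorem p_K12 (h0 : S_K0) : S_K12 := by
  intro θ hθ hreg lam S T h
  by_contra hcon
  obtain ⟨hS, hT⟩ := not_or.1 hcon
  obtain ⟨g, hg, hst⟩ := h
  obtain ⟨f1, hf1, C1, hC1, h1⟩ := get hS g (fun γ hγ => hg γ (Or.inl hγ))
  obtain ⟨f2, hf2, C2, hC2, h2⟩ := get hT g (fun γ hγ => hg γ (Or.inr hγ))
  have hcof : ℵ₀ < θ.ord.cof := by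
    rw [hreg.cof_ord]
    exact hθ
  obtain ⟨x, hx, hxST, hxl⟩ := hst (fun i => max (f1 i) (f2 i))
    (fun i hi => max_lt (hf1 i hi) (hf2 i hi)) (C1 ∩ C2) (h0 θ.ord hcof C1 C2 hC1 hC2)
  rcases hxST with hxS | hxT
  · exact hxl (mono (h1 x hx.1 hxS) (fun i => le_max_left _ _))
  · exact hxl (mono (h2 x hx.2 hxT) (fun i => le_max_right _ _))

end Pool.Agent.Work.MP_858761_dm
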