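import Pool.Agent.Work.MP_858761_dm.B_K15

set_option autoImplicit false

open Set Cardinal

namespace Pool.Agent.Work.MP_858761_dm

/-- `0 < λ_i < θ` for all `i < θ`, and `λ_i = 2^|i|` for a closed unbounded set of `i < θ`. -/
def BethOnClub (θ : Cardinal.{0}) (lam : Ordinal.{0} → Cardinal.{0}) : Prop :=
  (∀ i < θ.ord, 0 < lam i ∧ lam i < θ) ∧
    ∃ E : Set Ordinal.{0}, ClubIn θ.ord E ∧ ∀ i ∈ E, lam i = (2 : Cardinal.{0}) ^ i.card

theorem XK17.club (h7 : S_K7) {θ : Cardinal.{0}} (hθ : ℵ₀ < θ) (hreg : θ.IsRegular)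
    {E : Set Ordinal.{0}} (hE : ClubIn θ.ord E) :
    ∃ E' : Set Ordinal.{0}, ClubIn θ.ord E' ∧ ∀ γ ∈ E', ClubIn γ (E ∩ Iio γ) := by
  have hnx : ∀ α : Ordinal.{0}, ∃ x : Ordinal.{0}, α < θ.ord → x ∈ E ∧ α < x := by
    intro α
    by_cases hα : α < θ.ord
    · obtain ⟨x, hx1, hx2⟩ := hE.2.1 α hα
      exact ⟨x, fun _ => ⟨hx1, hx2⟩⟩
    · exact ⟨0, fun h => absurd h hα⟩
  choose nx hnx using hnx
  refine ⟨_, h7 θ hθ hreg (fun _ => E) (fun _ _ => hE) (fun α _ => nx α)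
    (fun α hα β _ => hE.1 (hnx α hα).1), ?_⟩
  rintro γ ⟨hγθ, hγ0, hγE, hγG⟩
  refine ⟨fun x hx => hx.2, ?_, ?_⟩
  · intro β hβ
    exact ⟨nx β, ⟨(hnx β (hβ.trans hγθ)).1, hγG β hβ β hβ⟩, (hnx β (hβ.trans hγθ)).2⟩
  · intro β hβ hβ0 hc
    refine ⟨hE.2.2 β (hβ.trans hγθ) hβ0 ?_, hβ⟩
    intro δ hδ
    obtain ⟨x, hx, h1, h2⟩ := hc δ hδ
    exact ⟨x, hx.1, h1, h2⟩

theorem XK17.ordpos {c : Cardinal.{0}} (h : 0 < c) : 0 < c.ord := by
  rw [Cardinal.lt_ord]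
  simpa using h

theorem XK17.transfer (h0 : S_K0) (h7 : S_K7) {θ : Cardinal.{0}} (hθ : ℵ₀ < θ)
    (hreg : θ.IsRegular) (lam mu : Ordinal.{0} → Cardinal.{0}) (hl : ∀ i < θ.ord, 0 < lam i)
    (hm : ∀ i < θ.ord, 0 < mu i) {E : Set Ordinal.{0}} (hE : ClubIn θ.ord E)
    (hEl : ∀ i ∈ E, lam i = mu i) (S : Set Ordinal.{0}) (hS : S ⊆ Iio θ.ord)
    (hcof : ∀ γ ∈ S, ℵ₀ < γ.cof) (h : DiamondL θ lam S) : DiamondL θ mu S := by
  obtain ⟨g, hg, hg2⟩ := h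
  obtain ⟨E', hE', hE2⟩ := XK17.club h7 hθ hreg hE
  classical
  refine ⟨fun γ i => if i ∈ E then g γ i else 0, ?_, ?_⟩
  · intro γ hγ i hi
    by_cases hc : i ∈ E
    · simp only [if_pos hc]
      rw [← hEl i hc]
      exact hg γ hγ i hi
    · simp only [if_neg hc]
      exact XK17.ordpos (hm i (hi.trans (hS hγ)))
  · intro f hf C hC
    have hcofθ : ℵ₀ < θ.ord.cof := by
      rw [hreg.cof_ord]
      exact hθ
    have hf' : ∀ i < θ.ord, (fun i => if i ∈ E then f i else 0) i < (lam i).ord := by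
      intro i hi
      by_cases hc : i ∈ E
      · simp only [if_pos hc]
        rw [hEl i hc]
        exact hf i hi
      · simp only [if_neg hc]
        exact XK17.ordpos (hl i hi)
    obtain ⟨γ, hγC, hγS, hγL⟩ := hg2 _ hf' (C ∩ E') (h0 θ.ord hcofθ C E' hC hE')
    refine ⟨γ, hγC.1, hγS, ?_⟩
    intro hL
    apply hγL
    rcases hL with ⟨h1, _⟩ | ⟨h1, D, hD, h2⟩
    · exact absurd h1 (hcof γ hγS).ne'
    · right
      refine ⟨h1, D ∩ (E ∩ Iio γ), h0 γ h1 _ _ hD (hE2 γ hγC.2), ?_⟩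
      rintro i ⟨hiD, hiE, hiγ⟩
      have h3 := h2 i hiD
      simp only [if_pos hiE] at h3 ⊢
      exact h3

theorem XK17.mono {θ : Cardinal.{0}} {lam : Ordinal.{0} → Cardinal.{0}}
    (hl : ∀ i < θ.ord, 0 < lam i) {S T : Set Ordinal.{0}} (hST : S ⊆ T) (hT : T ⊆ Iio θ.ord)
    (h : DiamondL θ lam S) : DiamondL θ lam T := by
  obtain ⟨g, hg, hg2⟩ := h
  classical
  refine ⟨fun γ i => if γ ∈ S then g γ i else 0, ?_, ?_⟩
  · intro γ hγ i hi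
    by_cases hc : γ ∈ S
    · simp only [if_pos hc]
      exact hg γ hc i hi
    · simp only [if_neg hc]
      exact XK17.ordpos (hl i (hi.trans (hT hγ)))
  · intro f hf C hC
    obtain ⟨γ, hγC, hγS, hγL⟩ := hg2 f hf C hC
    refine ⟨γ, hγC, hST hγS, ?_⟩
    have he : (fun i => if γ ∈ S then g γ i else 0) = g γ := by
      funext i
      rw [if_pos hγS]
    change ¬ LtStar γ (fun i => if γ ∈ S then g γ i else 0) f
    rw [he]
    exact hγL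

theorem XK17.empty {θ : Cardinal.{0}} {lam : Ordinal.{0} → Cardinal.{0}}
    (hl : ∀ i < θ.ord, 0 < lam i) {S E : Set Ordinal.{0}} (hE : ClubIn θ.ord E)
    (hES : ∀ γ ∈ E, γ ∉ S) : ¬ DiamondL θ lam S := by
  rintro ⟨g, _, hg⟩
  obtain ⟨γ, hγE, hγ3, _⟩ := hg (fun _ => 0) (fun i hi => XK17.ordpos (hl i hi)) E hE
  exact hES γ hγE hγ3

/-- K17: part (a) for all `λ` with `λ_i = 2^|i|` on a club. -/
def S_K17 : Prop := ∀ (θ : Cardinal.{0}), ℵ₀ < θ → θ.IsRegular → θ.IsStrongLimit →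
  ∀ lam : Ordinal.{0} → Cardinal.{0}, BethOnClub θ lam →
  ∀ S : Set Ordinal.{0}, S ⊆ Iio θ.ord → (∀ γ ∈ S, Nice γ) →
    (DiamondL θ lam S ↔ Diamond θ S)

theorem p_K17 (h0 : S_K0) (h7 : S_K7) (h9 : S_K9) (h10 : S_K10) : S_K17 := by
  intro θ hθ hreg hstr lam hlam S hS hn
  obtain ⟨hl, E, hE, hEl⟩ := hlam
  constructor
  · intro h
    refine h9 θ hθ hreg hstr S hS hn ?_
    refine XK17.transfer h0 h7 hθ hreg lam _ (fun i hi => (hl i hi).1) ?_ hE hEl S hS ?_ h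
    · intro i _
      have h1 := XK14.pos i
      rw [Cardinal.lt_ord] at h1
      simpa using h1
    · intro γ hγ
      obtain ⟨κ, _, _, h2, _⟩ := hn γ hγ
      exact h2
  · exact h10 θ hθ hreg S hS lam hl

/-- K18: part (c). -/
def S_K18 : Prop := ∀ (θ : Cardinal.{0}), ℵ₀ < θ → θ.IsRegular → θ.IsStrongLimit →
  SCHBelow θ → ∀ lam : Ordinal.{0} → Cardinal.{0}, BethOnClub θ lam →
  (DiamondL θ lam (Iio θ.ord) ↔
    Diamond θ (Iio θ.ord) ∨ DiamondL θ lam {γ | γ < θ.ord ∧ γ.cof = ℵ₀} ∨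
      DiamondL θ lam {γ | γ < θ.ord ∧ ∃ κ : Cardinal.{0}, γ = κ.ord ∧ κ.IsRegular})

theorem p_K18 (h10 : S_K10) (h11 : S_K11) (h12 : S_K12) (h16 : S_K16) (h17 : S_K17) : S_K18 := by
  intro θ hθ hreg hstr hsch lam hlam
  have hl := hlam.1
  have hl0 : ∀ i < θ.ord, 0 < lam i := fun i hi => (hl i hi).1
  constructor
  · intro h
    obtain ⟨E, hE, hE2⟩ := h16 θ hθ hreg hstr
    have hU : Iio θ.ord = (({γ : Ordinal.{0} | γ < θ.ord ∧ SingStrong γ ∧ ℵ₀ < γ.cof} ∪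
        {γ | γ < θ.ord ∧ γ.cof = ℵ₀}) ∪
        {γ | γ < θ.ord ∧ ∃ κ : Cardinal.{0}, γ = κ.ord ∧ κ.IsRegular}) ∪
        {γ | γ < θ.ord ∧ ¬ (SingStrong γ ∧ ℵ₀ < γ.cof) ∧ ¬ γ.cof = ℵ₀ ∧
          ¬ ∃ κ : Cardinal.{0}, γ = κ.ord ∧ κ.IsRegular} := by
      ext γ
      simp only [mem_Iio, mem_union, Set.mem_ofPred_eq]
      generalize (∃ κ : Cardinal.{0}, γ = κ.ord ∧ κ.IsRegular) = P
      tauto
    rw [hU] at h
    rcases h12 θ hθ hreg _ _ _ h with h | h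
    · rcases h12 θ hθ hreg _ _ _ h with h | h
      · rcases h12 θ hθ hreg _ _ _ h with h | h
        · left
          exact XK15.monoD (fun γ hγ => hγ.1) ((h17 θ hθ hreg hstr lam hlam _ (fun γ hγ => hγ.1)
            (fun γ hγ => h11 θ hsch γ hγ.1 hγ.2.1 hγ.2.2)).1 h)
        · right
          left
          exact h
      · right
        right
        exact h
    · exfalso
      refine XK17.empty hl0 hE ?_ h
      intro γ hγE hγ3
      obtain ⟨⟨κ, hκ1, hκ2⟩, h5⟩ := hE2 γ hγE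
      have hcof : ℵ₀ < γ.cof := lt_of_le_of_ne h5 (fun h => hγ3.2.2.1 h.symm)
      apply hγ3.2.1
      refine ⟨⟨κ, hκ1, hκ2, ?_⟩, hcof⟩
      by_contra hle
      rw [not_lt] at hle
      apply hγ3.2.2.2
      refine ⟨κ, hκ1, hκ2.aleph0_le, ?_⟩
      rw [hκ1] at hle
      exact hle
  · rintro (h | h | h)
    · exact h10 θ hθ hreg (Iio θ.ord) subset_rfl _ hl h
    · exact XK17.mono hl0 (fun γ hγ => hγ.1) subset_rfl h
    · exact XK17.mono hl0 (fun γ hγ => hγ.1) subset_rfl h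

/-- K19: part (d). -/
def S_K19 : Prop := ∀ (θ : Cardinal.{0}), ℵ₀ < θ → θ.IsRegular → θ.IsStrongLimit →
  ¬ RegStat θ → SCHBelow θ → ∀ lam : Ordinal.{0} → Cardinal.{0}, BethOnClub θ lam →
  (DiamondL θ lam (Iio θ.ord) ↔
    Diamond θ (Iio θ.ord) ∨ DiamondL θ lam {γ | γ < θ.ord ∧ γ.cof = ℵ₀})

theorem p_K19 (h18 : S_K18) : S_K19 := by
  intro θ hθ hreg hstr hnr hsch lam hlam
  rw [h18 θ hθ hreg hstr hsch lam hlam]
  constructor
  · rintro (h | h | h)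
    · exact Or.inl h
    · exact Or.inr h
    · exfalso
      unfold RegStat StatIn at hnr
      push Not at hnr
      obtain ⟨C, hC, hC2⟩ := hnr
      exact XK17.empty (fun i hi => (hlam.1 i hi).1) hC (fun γ hγ h => hC2 γ hγ h.2) h
  · rintro (h | h)
    · exact Or.inl h
    · exact Or.inr (Or.inl h)

end Pool.Agent.Work.MP_858761_dm
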