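import Pool.Agent.Work.MP_858761_dm.Defs

set_option autoImplicit false

open Set Cardinal

namespace Pool.Agent.Work.MP_858761_dm

theorem p_K2 : S_K2 := by
  intro δ hδ
  have hlim : Order.IsSuccLimit δ := Ordinal.one_lt_cof_iff.1 (lt_trans one_lt_aleph0 hδ)
  obtain ⟨s, hs, hcard⟩ := Order.exists_cof_eq (Iio δ)
  have hcard' : #s = Cardinal.lift.{1} δ.cof := by
    rw [hcard, Ordinal.cof_Iio, Ordinal.lift_cof]
  obtain ⟨S, hS⟩ : ∃ S : Set Ordinal.{0}, S = Subtype.val '' s := ⟨_, rfl⟩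
  have hcof : ∀ β < δ, ∃ x ∈ S, β < x ∧ x < δ := by
    intro β hβ
    obtain ⟨y, hy, hle⟩ := hs ⟨Order.succ β, hlim.succ_lt hβ⟩
    rw [hS]
    exact ⟨y.1, ⟨y, hy, rfl⟩, lt_of_lt_of_le (Order.lt_succ β) hle, y.2⟩
  have hSδ : ∀ x ∈ S, x < δ := by
    intro x hx
    rw [hS] at hx
    obtain ⟨y, -, rfl⟩ := hx
    exact y.2
  obtain ⟨L, hL⟩ : ∃ L : Set Ordinal.{0}, L = {β | β < δ ∧ ∀ γ < β, ∃ x ∈ S, γ < x ∧ x < β} :=
    ⟨_, rfl⟩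
  have hSc : #S ≤ Cardinal.lift.{1} δ.cof := by
    rw [← hcard', hS]
    exact mk_image_le
  have hLc : #L ≤ #S := by
    have hne : ∀ β ∈ L, {x | x ∈ S ∧ β ≤ x}.Nonempty := by
      intro β hβ
      rw [hL] at hβ
      obtain ⟨x, hx, hx1, -⟩ := hcof β hβ.1
      exact ⟨x, hx, hx1.le⟩
    have hm : ∀ β ∈ L, sInf {x | x ∈ S ∧ β ≤ x} ∈ S ∧ β ≤ sInf {x | x ∈ S ∧ β ≤ x} :=
      fun β hβ => csInf_mem (hne β hβ)
    have hlt : ∀ β ∈ L, ∀ β' ∈ L, β < β' →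
        sInf {x | x ∈ S ∧ β ≤ x} < sInf {x | x ∈ S ∧ β' ≤ x} := by
      intro β hβ β' hβ' h
      have h1 := hβ'
      rw [hL] at h1
      obtain ⟨x, hx, hx1, hx2⟩ := h1.2 β h
      calc sInf {x | x ∈ S ∧ β ≤ x} ≤ x := csInf_le' ⟨hx, hx1.le⟩
        _ < β' := hx2
        _ ≤ _ := (hm β' hβ').2
    refine Cardinal.mk_le_of_injective
      (f := fun β : L => (⟨sInf {x | x ∈ S ∧ β.1 ≤ x}, (hm β.1 β.2).1⟩ : S)) ?_
    intro β β' h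
    have h1 : sInf {x | x ∈ S ∧ β.1 ≤ x} = sInf {x | x ∈ S ∧ β'.1 ≤ x} :=
      congrArg Subtype.val h
    apply Subtype.ext
    rcases lt_trichotomy β.1 β'.1 with h2 | h2 | h2
    · exact absurd h1 (hlt _ β.2 _ β'.2 h2).ne
    · exact h2
    · exact absurd h1 (hlt _ β'.2 _ β.2 h2).ne'
  refine ⟨S ∪ L, ⟨?_, ?_, ?_⟩, ?_⟩
  · rintro x (hx | hx)
    · exact hSδ x hx
    · rw [hL] at hx
      exact hx.1
  · intro β hβ
    obtain ⟨x, hx, hx1, -⟩ := hcof β hβ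
    exact ⟨x, Or.inl hx, hx1⟩
  · intro β hβ _ h
    right
    rw [hL]
    refine ⟨hβ, fun γ hγ => ?_⟩
    obtain ⟨x, hx | hx, hx1, hx2⟩ := h γ hγ
    · exact ⟨x, hx, hx1, hx2⟩
    · rw [hL] at hx
      obtain ⟨y, hy, hy1, hy2⟩ := hx.2 γ hx1
      exact ⟨y, hy, hy1, hy2.trans hx2⟩
  · have h0 : ℵ₀ ≤ Cardinal.lift.{1} δ.cof := by
      rw [Cardinal.aleph0_le_lift]
      exact hδ.le
    calc #(S ∪ L : Set Ordinal.{0}) ≤ #S + #L := mk_union_le S L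
      _ ≤ Cardinal.lift.{1} δ.cof + Cardinal.lift.{1} δ.cof :=
        add_le_add hSc (hLc.trans hSc)
      _ = Cardinal.lift.{1} δ.cof := Cardinal.add_eq_self h0

end Pool.Agent.Work.MP_858761_dm
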