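import Pool.Agent.Work.MP_858761_dm.Defs

set_option autoImplicit false

open Set Cardinal

namespace Pool.Agent.Work.MP_858761_dm
namespace XK3

theorem pow_lt {c a b : Cardinal.{1}} (hc : c.IsStrongLimit) (ha : a < c) (hb : b < c) :
    a ^ b < c := by
  rcases lt_or_ge (max a b) ℵ₀ with h | h
  · exact (Cardinal.power_lt_aleph0 ((le_max_left _ _).trans_lt h)
      ((le_max_right _ _).trans_lt h)).trans_le hc.aleph0_le
  · have hm : max a b < c := max_lt ha hb
    calc a ^ b ≤ (max a b) ^ b := Cardinal.power_le_power_right (le_max_left _ _)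
      _ ≤ (max a b) ^ (max a b) := Cardinal.power_le_power_left
          (fun h0 => by rw [h0] at h; exact absurd h (not_le.2 Cardinal.aleph0_pos))
          (le_max_right _ _)
      _ = 2 ^ (max a b) := power_self_eq h
      _ < c := hc.isStrongPrelimit hm

theorem lift_strong {κ : Cardinal.{0}} (h : κ.IsStrongLimit) :
    (Cardinal.lift.{1} κ).IsStrongLimit := by
  refine ⟨by simpa using h.ne_zero, fun x hx => ?_⟩
  obtain ⟨y, hy, rfl⟩ := lt_lift_iff.1 hx
  rw [← lift_two_power]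
  exact lift_lt.2 (h.isStrongPrelimit hy)

end XK3

theorem p_K3 : S_K3 := by
  classical
  intro κ hκ R hR hRc ix Pf hix
  have hc := XK3.lift_strong hκ
  let Bν : Iio κ.ord → Set (Set Ordinal.{0}) := fun ν =>
    {B | B ⊆ Iio κ.ord ∧ ∀ β < κ.ord, ∃ i ∈ R, β < i ∧ B ∩ Iio i ∈ Pf i ∧
      ix i (B ∩ Iio i) < ν.1}
  have h1 : {B : Set Ordinal.{0} | B ⊆ Iio κ.ord ∧ ∃ ν < κ.ord, ∀ β < κ.ord, ∃ i ∈ R, β < i ∧
    B ∩ Iio i ∈ Pf i ∧ ix i (B ∩ Iio i) < ν} = ⋃ ν, Bν ν := by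
    ext B
    simp only [Set.mem_ofPred_eq, mem_iUnion, Bν]
    constructor
    · rintro ⟨h, ν, hν, h2⟩
      exact ⟨⟨ν, hν⟩, h, h2⟩
    · rintro ⟨⟨ν, hν⟩, h, h2⟩
      exact ⟨h, ν, hν, h2⟩
  have key : ∀ ν, #(Bν ν) < Cardinal.lift.{1} κ := by
    intro ν
    let Φ : Bν ν → (R → Option (Iio (ν : Ordinal.{0}))) := fun B i =>
      if h : B.1 ∩ Iio i.1 ∈ Pf i.1 ∧ ix i.1 (B.1 ∩ Iio i.1) < ν.1 then
        some ⟨ix i.1 (B.1 ∩ Iio i.1), h.2⟩ else none
    have inj : Function.Injective Φ := by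
      intro B B' hBB
      have h : ∀ i ∈ R, (B.1 ∩ Iio i ∈ Pf i ∧ ix i (B.1 ∩ Iio i) < ν.1) →
          B.1 ∩ Iio i = B'.1 ∩ Iio i := by
        intro i hi hc
        have := congrFun hBB ⟨i, hi⟩
        simp only [Φ] at this
        rw [dif_pos hc] at this
        by_cases hc' : B'.1 ∩ Iio i ∈ Pf i ∧ ix i (B'.1 ∩ Iio i) < ν.1
        · rw [dif_pos hc'] at this
          have := congrArg Subtype.val (Option.some.inj this)
          exact hix i hi _ hc.1 _ hc'.1 this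
        · rw [dif_neg hc'] at this
          exact absurd this (by simp)
      apply Subtype.ext
      ext x
      by_cases hx : x < κ.ord
      · obtain ⟨i, hi, hxi, hP, hlt⟩ := B.2.2 x hx
        have e := h i hi ⟨hP, hlt⟩
        constructor
        · intro hxB
          have : x ∈ B'.1 ∩ Iio i := e ▸ ⟨hxB, hxi⟩
          exact this.1
        · intro hxB
          have : x ∈ B.1 ∩ Iio i := e.symm ▸ ⟨hxB, hxi⟩
          exact this.1
      · exact ⟨fun h => absurd (B.2.1 h) hx, fun h => absurd (B'.2.1 h) hx⟩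
    calc #(Bν ν) ≤ #(R → Option (Iio (ν : Ordinal.{0}))) := mk_le_of_injective inj
      _ = (#(Iio (ν : Ordinal.{0})) + 1) ^ #R := by rw [mk_arrow, mk_option, lift_id, lift_id]
      _ < Cardinal.lift.{1} κ := XK3.pow_lt hc (by
          have h2 : #(Iio (ν : Ordinal.{0})) < Cardinal.lift.{1} κ := by
            rw [Cardinal.mk_Iio_ordinal]
            exact lift_lt.2 (lt_ord.1 ν.2)
          exact add_lt_of_lt hc.aleph0_le h2 (one_lt_aleph0.trans_le hc.aleph0_le)) hRc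
  rw [h1]
  calc #(⋃ ν, Bν ν) ≤ #(Iio κ.ord) * ⨆ ν, #(Bν ν) := mk_iUnion_le _
    _ ≤ Cardinal.lift.{1} κ * Cardinal.lift.{1} κ := mul_le_mul' (by
        rw [Cardinal.mk_Iio_ordinal, card_ord]) (ciSup_le' fun ν => (key ν).le)
    _ = Cardinal.lift.{1} κ := mul_eq_self hc.aleph0_le

end Pool.Agent.Work.MP_858761_dm
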