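import Pool.Agent.Work.MP_858761_dm.Defs

set_option autoImplicit false

open Set Cardinal

namespace Pool.Agent.Work.MP_858761_dm

namespace XK4

theorem ex (i : Ordinal.{0}) : ∃ f : Set Ordinal.{0} → Ordinal.{0},
    (∀ A : Set Ordinal.{0}, A ⊆ Iio i → f A < ((2 : Cardinal.{0}) ^ i.card).ord) ∧
    ∀ A B : Set Ordinal.{0}, A ⊆ Iio i → B ⊆ Iio i → f A = f B → A = B := by
  classical
  have h1 : #(Set (Iio i)) = #(Iio ((2 : Cardinal.{0}) ^ i.card).ord) := by
    rw [Cardinal.mk_set, Cardinal.mk_Iio_ordinal, Cardinal.mk_Iio_ordinal, Cardinal.card_ord,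
      Cardinal.lift_power, Cardinal.lift_two]
  obtain ⟨e⟩ := Cardinal.eq.mp h1
  refine ⟨fun A => (e (Subtype.val ⁻¹' A) : Ordinal.{0}), fun A _ => (e (Subtype.val ⁻¹' A)).2, ?_⟩
  intro A B hA hB h
  have h2 := e.injective (Subtype.ext h)
  ext x
  constructor
  · intro hx
    have : (⟨x, hA hx⟩ : Iio i) ∈ Subtype.val ⁻¹' A := hx
    rw [h2] at this
    exact this
  · intro hx
    have : (⟨x, hB hx⟩ : Iio i) ∈ Subtype.val ⁻¹' B := hx
    rw [← h2] at this
    exact this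

end XK4

theorem p_K4 : S_K4 := by
  choose f hf using XK4.ex
  exact ⟨f, hf⟩

end Pool.Agent.Work.MP_858761_dm
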