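import Pool.Agent.Work.MP_858761_dm.Defs

set_option autoImplicit false

open Set Cardinal

namespace Pool.Agent.Work.MP_858761_dm

/-- block K5 -/
theorem p_K5 : S_K5 := by
  intro i x hi hx
  have hx1 : x.card ≤ i.card := Order.lt_succ_iff.mp (Cardinal.lt_ord.mp hx)
  have hi0 : ℵ₀ ≤ i.card := Ordinal.aleph0_le_card.mpr hi
  have h2 : (x + 1).card ≤ i.card := by
    rw [Ordinal.card_add, Ordinal.card_one]
    exact (add_le_add hx1 (Cardinal.one_lt_aleph0.le.trans hi0)).trans_eq (Cardinal.add_eq_self hi0)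
  have h3 : #(Iio (x + 1)) ≤ #(Iio i) := by
    rw [Cardinal.mk_Iio_ordinal, Cardinal.mk_Iio_ordinal]
    exact Cardinal.lift_le.mpr h2
  obtain ⟨f⟩ := Cardinal.le_def _ _ |>.mp h3
  classical
  refine ⟨fun y => if h : y ≤ x then (f ⟨y, Order.lt_add_one_iff.mpr h⟩ : Ordinal.{0}) else 0, ?_, ?_⟩
  · intro y hy
    simp only [hy, dif_pos]
    exact (f ⟨y, Order.lt_add_one_iff.mpr hy⟩).2
  · intro y hy z hz hyz
    simp only [hy, hz, dif_pos] at hyz
    have := f.injective (Subtype.ext hyz)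
    exact congrArg Subtype.val this

end Pool.Agent.Work.MP_858761_dm
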