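import Pool.Agent.Work.MP_858761_dm.Defs

/-! Block K6: the local theorem (Silver). -/

set_option autoImplicit false

open Set Cardinal

namespace Pool.Agent.Work.MP_858761_dm

namespace XK6

lemma club_seg (γ : Ordinal.{0}) (hγ : Order.IsSuccLimit γ) (hω : Ordinal.omega0 < γ) :
    ClubIn γ {i | Ordinal.omega0 ≤ i ∧ i < γ} := by
  refine ⟨fun i hi => hi.2, ?_, ?_⟩
  · intro β hβ
    refine ⟨max (Order.succ β) Ordinal.omega0, ⟨le_max_right _ _, ?_⟩, ?_⟩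
    · exact max_lt (hγ.succ_lt hβ) hω
    · exact lt_of_lt_of_le (Order.lt_succ β) (le_max_left _ _)
  · intro β hβ h0 h
    obtain ⟨x, hx, -, hxβ⟩ := h 0 (pos_iff_ne_zero.2 h0)
    exact ⟨hx.1.trans hxβ.le, hβ⟩

end XK6

open Classical in
theorem p_K6 (h0 : S_K0) (h1 : S_K1) (h2 : S_K2) (h3 : S_K3) (h5 : S_K5) : S_K6 := by
  intro code hcode γ hN g hg
  obtain ⟨κ, hγκ, hκ, hcof, hcofκ, C, hC, hC2⟩ := hN
  have hκ0 : ℵ₀ ≤ κ := hκ.aleph0_le
  have hlim : Order.IsSuccLimit γ := by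
    rw [hγκ]; exact Cardinal.isSuccLimit_ord hκ0
  have hω : Ordinal.omega0 < γ := by
    rw [hγκ, ← Cardinal.ord_aleph0]
    exact Cardinal.ord_lt_ord.2 (hcof.trans hcofκ)
  obtain ⟨R, hR, hRc⟩ := h2 γ hcof
  set R' : Set Ordinal.{0} := (R ∩ C) ∩ {i | Ordinal.omega0 ≤ i ∧ i < γ} with hR'
  have hR'club : ClubIn γ R' := h0 γ hcof _ _ (h0 γ hcof R C hR hC) (XK6.club_seg γ hlim hω)
  have hlt : ∀ i ∈ R', g i < (Order.succ i.card).ord := by
    intro i hi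
    have h6 := hg i (hR'club.1 hi)
    rw [hC2 i hi.1.2] at h6
    exact h6
  have hch : ∀ i : Ordinal.{0}, ∃ e : Ordinal.{0} → Ordinal.{0}, i ∈ R' →
      (∀ y ≤ g i, e y < i) ∧ ∀ y ≤ g i, ∀ z ≤ g i, e y = e z → y = z := by
    intro i
    by_cases hi : i ∈ R'
    · obtain ⟨e, he⟩ := h5 i (g i) hi.2.1 (hlt i hi)
      exact ⟨e, fun _ => he⟩
    · exact ⟨fun _ => 0, fun h => absurd h hi⟩
  choose e he using hch
  have hR'c : #R' < Cardinal.lift.{1} κ := by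
    calc #R' ≤ #R := Cardinal.mk_le_mk_of_subset (fun i hi => hi.1.1)
      _ ≤ Cardinal.lift.{1} γ.cof := hRc
      _ < Cardinal.lift.{1} κ := Cardinal.lift_lt.2 hcofκ
  have key := h3 κ hκ R' (by rw [← hγκ]; exact hR'club.1) hR'c
    (fun i A => e i (code i A)) (fun i => {A | A ⊆ Iio i ∧ code i A ≤ g i}) (by
      intro i hi A hA B hB hAB
      have := (he i hi).2 _ hA.2 _ hB.2 hAB
      exact (hcode i).2 A B hA.1 hB.1 this)
  refine ⟨_, key.trans ?_, ?_⟩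
  · rw [hγκ, Cardinal.card_ord]
  · intro B hB hnot
    set T : Set Ordinal.{0} := {i | i < γ ∧ code i (B ∩ Iio i) ≤ g i} with hT
    have hTs : ∀ D, ClubIn γ D → ∃ x ∈ D, x ∈ T := by
      intro D hD
      by_contra hcon
      push Not at hcon
      apply hnot
      right
      refine ⟨hcof, D, hD, fun i hi => ?_⟩
      by_contra hle
      exact hcon i hi ⟨hD.1 hi, not_lt.1 hle⟩
    have hst : StatIn γ (T ∩ R') := by
      intro D hD
      obtain ⟨x, hx, hxT⟩ := hTs _ (h0 γ hcof D R' hD hR'club)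
      exact ⟨x, hx.1, hxT, hx.2⟩
    obtain ⟨ν, hν, hb⟩ := h1 γ hcof (T ∩ R') (fun i hi => hi.1.1) hst
      (fun i => e i (code i (B ∩ Iio i))) (fun i hi => (he i hi.2).1 _ hi.1.2)
    refine ⟨by rw [← hγκ]; exact hB, ν, by rw [← hγκ]; exact hν, ?_⟩
    intro β hβ
    rw [← hγκ] at hβ
    obtain ⟨i, hi, hβi, hiν⟩ := hb β hβ
    exact ⟨i, hi.2, hβi, ⟨inter_subset_right, hi.1.2⟩, hiν⟩

end Pool.Agent.Work.MP_858761_dm
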