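import Pool.Agent.Work.MP_858761_dm.Defs
import Pool.Agent.Work.MP_f3e7a9_gt.Base

/-! Block K7: diagonal intersections (helper57). -/

set_option autoImplicit false

open Set Cardinal

namespace Pool.Agent.Work.MP_858761_dm

theorem p_K7 : S_K7 := by
  intro θ h0 hr D hD G hG
  refine ⟨fun γ hγ => hγ.1, ?_, ?_⟩
  · intro β hβ
    have hM : ∀ a : Ordinal.{0}, ∃ b, a < θ.ord → (b < θ.ord ∧ a < b ∧
        (∀ x ≤ a, ∀ y ≤ a, G x y < b) ∧ ∀ ξ ≤ a, ∃ d ∈ D ξ, a < d ∧ d < b) := by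
      intro a
      by_cases ha : a < θ.ord
      · have hc := Pool.Agent.Work.MP_f3e7a9_gt.card_Iic_lt hr ha
        have hpr : #(Iic a × Iic a) < Cardinal.lift.{1} θ := by
          rw [Cardinal.mk_prod, Cardinal.lift_id]
          exact Cardinal.mul_lt_of_lt (by simpa using hr.aleph0_le) hc hc
        obtain ⟨b1, hb1, hb1'⟩ := Pool.Agent.Work.MP_f3e7a9_gt.exists_bound hr hpr
          (fun x : Iic a × Iic a => G x.1 x.2)
          (fun x => hG _ (lt_of_le_of_lt x.1.2 ha) _ (lt_of_le_of_lt x.2.2 ha))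
        have hd : ∀ ξ : Iic a, ∃ d, d ∈ D ξ ∧ a < d ∧ d < θ.ord := by
          intro ξ
          obtain ⟨d, h1, h2⟩ := (hD ξ (lt_of_le_of_lt ξ.2 ha)).2.1 a ha
          exact ⟨d, h1, h2, (hD ξ (lt_of_le_of_lt ξ.2 ha)).1 h1⟩
        choose d hd1 hd2 hd3 using hd
        obtain ⟨b2, hb2, hb2'⟩ := Pool.Agent.Work.MP_f3e7a9_gt.exists_bound hr hc d hd3
        refine ⟨max b1 b2, fun _ => ⟨max_lt hb1 hb2, ?_, ?_, ?_⟩⟩
        · exact ((hd2 ⟨a, mem_Iic.2 le_rfl⟩).trans (hb2' ⟨a, mem_Iic.2 le_rfl⟩)).trans_le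
            (le_max_right _ _)
        · intro x hx y hy
          exact (hb1' (⟨x, mem_Iic.2 hx⟩, ⟨y, mem_Iic.2 hy⟩)).trans_le (le_max_left _ _)
        · intro ξ hξ
          exact ⟨d ⟨ξ, mem_Iic.2 hξ⟩, hd1 ⟨ξ, mem_Iic.2 hξ⟩, hd2 ⟨ξ, mem_Iic.2 hξ⟩,
            (hb2' ⟨ξ, mem_Iic.2 hξ⟩).trans_le (le_max_right _ _)⟩
      · exact ⟨0, fun h => absurd h ha⟩
    choose M hM using hM
    let s : ℕ → Ordinal.{0} := fun n => Nat.rec β (fun _ x => M x) n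
    have hs : ∀ n, s n < θ.ord := by
      intro n
      induction n with
      | zero => exact hβ
      | succ n ih => exact (hM _ ih).1
    have hs1 : ∀ n, s n < s (n + 1) := fun n => (hM _ (hs n)).2.1
    have hs2 : ∀ n, ∀ x ≤ s n, ∀ y ≤ s n, G x y < s (n + 1) := fun n => (hM _ (hs n)).2.2.1
    have hs3 : ∀ n, ∀ ξ ≤ s n, ∃ d ∈ D ξ, s n < d ∧ d < s (n + 1) :=
      fun n => (hM _ (hs n)).2.2.2
    have hmono : StrictMono s := strictMono_nat_of_lt_succ hs1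
    obtain ⟨b, hb, hb'⟩ := Pool.Agent.Work.MP_f3e7a9_gt.exists_bound hr
      (Pool.Agent.Work.MP_f3e7a9_gt.nat_lt_of h0) (fun n : ULift.{1} ℕ => s n.down)
      (fun n => hs _)
    have hbdd : BddAbove (range s) := ⟨b, by rintro _ ⟨n, rfl⟩; exact (hb' ⟨n⟩).le⟩
    have hle : ∀ n, s n ≤ ⨆ n, s n := fun n => le_ciSup hbdd n
    have hlt : ∀ n, s n < ⨆ n, s n := fun n => (hs1 n).trans_le (hle (n + 1))
    have hex : ∀ x < ⨆ n, s n, ∃ n, x < s n := fun x hx => by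
      obtain ⟨n, hn⟩ := exists_lt_of_lt_ciSup hx
      exact ⟨n, hn⟩
    have hex2 : ∀ x < ⨆ n, s n, ∀ y < ⨆ n, s n, ∃ n, x < s n ∧ y < s n := by
      intro x hx y hy
      obtain ⟨n, hn⟩ := hex x hx
      obtain ⟨m, hm⟩ := hex y hy
      exact ⟨max n m, hn.trans_le (hmono.monotone (le_max_left _ _)),
        hm.trans_le (hmono.monotone (le_max_right _ _))⟩
    have hsup : (⨆ n, s n) < θ.ord := lt_of_le_of_lt (ciSup_le fun n => (hb' ⟨n⟩).le) hb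
    have hne : (⨆ n, s n) ≠ 0 := by
      intro h
      have := hlt 0
      rw [h] at this
      exact absurd this not_lt_zero
    refine ⟨⨆ n, s n, ⟨hsup, hne, ?_, ?_⟩, hlt 0⟩
    · intro ξ hξ
      refine (hD ξ (hξ.trans hsup)).2.2 _ hsup hne ?_
      intro c hc
      obtain ⟨n, h1, h2⟩ := hex2 ξ hξ c hc
      obtain ⟨d, hd1, hd2, hd3⟩ := hs3 n ξ h1.le
      exact ⟨d, hd1, h2.trans hd2, hd3.trans (hlt (n + 1))⟩
    · intro x hx y hy
      obtain ⟨n, h1, h2⟩ := hex2 x hx y hy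
      exact (hs2 n x h1.le y h2.le).trans (hlt (n + 1))
  · intro β hβ hβ0 hcl
    refine ⟨hβ, hβ0, ?_, ?_⟩
    · intro ξ hξ
      refine (hD ξ (hξ.trans hβ)).2.2 β hβ hβ0 ?_
      intro c hc
      obtain ⟨x, hx, h1, h2⟩ := hcl (max c ξ) (max_lt hc hξ)
      exact ⟨x, hx.2.2.1 ξ (lt_of_le_of_lt (le_max_right _ _) h1),
        lt_of_le_of_lt (le_max_left _ _) h1, h2⟩
    · intro a ha b hb
      obtain ⟨x, hx, h1, h2⟩ := hcl (max a b) (max_lt ha hb)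
      exact (hx.2.2.2 a (lt_of_le_of_lt (le_max_left _ _) h1) b
        (lt_of_le_of_lt (le_max_right _ _) h1)).trans h2

end Pool.Agent.Work.MP_858761_dm
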