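import Pool.Agent.Work.MP_858761_dm.Defs
import Pool.Agent.Work.MP_f3e7a9_gt.Base

/-!
# Block K8: Kunen's theorem
-/

set_option autoImplicit false

open Set Cardinal

namespace Pool.Agent.Work.MP_858761_dm

theorem p_K8 (h7 : S_K7) : S_K8 := by
  intro θ hθ hr S A hS hA hstat
  by_contra hcon
  obtain ⟨p, hp, hpinj⟩ := Pool.Agent.Work.MP_f3e7a9_gt.exists_pairing hθ
  set π : Ordinal.{0} → Ordinal.{0} → Ordinal.{0} := fun α β => p α β 0 with hπ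
  have hπlt : ∀ α < θ.ord, ∀ β < θ.ord, π α β < θ.ord := fun α hα β hβ => hp α hα β hβ 0
  have hπinj : ∀ α < θ.ord, ∀ β < θ.ord, ∀ α' < θ.ord, ∀ β' < θ.ord, π α β = π α' β' →
      α = α' ∧ β = β' := fun α hα β hβ α' hα' β' hβ' h => by
    obtain ⟨h1, h2, -⟩ := hpinj α hα β hβ 0 α' hα' β' hβ' 0 h
    exact ⟨h1, h2⟩
  have hnum : ∀ γ ∈ S, ∃ a : Ordinal.{0} → Set Ordinal.{0}, ∀ Y ∈ A γ, ∃ ξ < γ, a ξ = Y := by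
    intro γ hγ
    have h1 : #(A γ) ≤ #(Iio γ) := by
      rw [Cardinal.mk_Iio_ordinal]
      exact hA γ hγ
    obtain ⟨e⟩ := Cardinal.le_def _ _ |>.1 h1
    have hinj : Function.Injective fun Y : A γ => ((e Y : Iio γ) : Ordinal.{0}) :=
      Subtype.val_injective.comp e.injective
    refine ⟨Function.extend (fun Y : A γ => ((e Y : Iio γ) : Ordinal.{0}))
      (fun Y => (Y : Set Ordinal.{0})) (fun _ => ∅), fun Y hY => ⟨(e ⟨Y, hY⟩ : Iio γ).1,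
        (e ⟨Y, hY⟩).2, ?_⟩⟩
    exact hinj.extend_apply _ _ ⟨Y, hY⟩
  choose! a ha using hnum
  have hfail : ∀ ξ : Ordinal.{0}, ∃ (X D : Set Ordinal.{0}), X ⊆ Iio θ.ord ∧ ClubIn θ.ord D ∧
      ∀ γ ∈ D, γ ∈ S → X ∩ Iio γ ≠ {β | β < γ ∧ π β ξ ∈ a γ ξ} := by
    intro ξ
    by_contra hno
    push Not at hno
    refine hcon ⟨fun γ => {β | β < γ ∧ π β ξ ∈ a γ ξ}, fun γ _ β hβ => hβ.1, fun X hX D hD => ?_⟩
    obtain ⟨γ, hγD, hγS, hγ⟩ := hno X D hX hD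
    exact ⟨γ, hγD, hγS, hγ⟩
  choose X D hX hD hXD using hfail
  have hclub := h7 θ hθ hr D (fun ξ _ => hD ξ) π hπlt
  obtain ⟨γ, ⟨hγθ, hγ0, hγD, hγπ⟩, hγS, hγA⟩ := hstat
    {z | ∃ ξ, ξ < θ.ord ∧ ∃ β ∈ X ξ, z = π β ξ}
    (by
      rintro z ⟨ξ, hξ, β, hβ, rfl⟩
      exact hπlt β (hX ξ hβ) ξ hξ) _ hclub
  obtain ⟨ξ, hξ, hξa⟩ := ha γ hγS _ hγA
  refine hXD ξ γ (hγD ξ hξ) hγS ?_
  ext β
  constructor
  · rintro ⟨hβX, hβγ⟩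
    refine ⟨hβγ, ?_⟩
    rw [hξa]
    exact ⟨⟨ξ, hξ.trans hγθ, β, hβX, rfl⟩, hγπ β hβγ ξ hξ⟩
  · rintro ⟨hβγ, hβ⟩
    rw [hξa] at hβ
    obtain ⟨⟨ξ', hξ', β', hβ', heq⟩, -⟩ := hβ
    obtain ⟨h1, h2⟩ := hπinj β (hβγ.trans hγθ) ξ (hξ.trans hγθ) β' (hX ξ' hβ') ξ' hξ' heq
    subst h1
    subst h2
    exact ⟨hβ', hβγ⟩

end Pool.Agent.Work.MP_858761_dm
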