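import Pool.Agent.Work.MP_858761_dm.Defs

set_option autoImplicit false

open Set Cardinal

namespace Pool.Agent.Work.MP_858761_dm

theorem p_K9 (h4 : S_K4) (h6 : S_K6) (h8 : S_K8) : S_K9 := by
  classical
  intro θ hθ hreg _ S hS hnice hdl
  obtain ⟨g, hg, hgf⟩ := hdl
  obtain ⟨code, hcode⟩ := h4
  have hA : ∀ γ ∈ S, ∃ A : Set (Set Ordinal.{0}), #A ≤ Cardinal.lift.{1} γ.card ∧
      ∀ B : Set Ordinal.{0}, B ⊆ Iio γ → ¬ LtStar γ (g γ) (fun i => code i (B ∩ Iio i)) → B ∈ A :=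
    fun γ hγ => h6 code hcode γ (hnice γ hγ) (g γ) (hg γ hγ)
  choose! A hA1 hA2 using hA
  apply h8 θ hθ hreg S A hS hA1
  intro X _ C hC
  obtain ⟨γ, hγC, hγS, hnot⟩ := hgf (fun i => code i (X ∩ Iio i))
    (fun i _ => (hcode i).1 _ inter_subset_right) C hC
  refine ⟨γ, hγC, hγS, hA2 γ hγS (X ∩ Iio γ) inter_subset_right ?_⟩
  intro hlt
  apply hnot
  have key : ∀ i < γ, (X ∩ Iio γ) ∩ Iio i = X ∩ Iio i := by
    intro i hi
    ext z
    simp only [mem_inter_iff, mem_Iio]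
    constructor
    · rintro ⟨⟨h1, -⟩, h2⟩
      exact ⟨h1, h2⟩
    · rintro ⟨h1, h2⟩
      exact ⟨⟨h1, h2.trans hi⟩, h2⟩
  rcases hlt with ⟨h1, a, ha, h2⟩ | ⟨h1, C', hC', h2⟩
  · left
    refine ⟨h1, a, ha, fun i hai hi => ?_⟩
    have h3 : g γ i < code i ((X ∩ Iio γ) ∩ Iio i) := h2 i hai hi
    rw [key i hi] at h3
    exact h3
  · right
    refine ⟨h1, C', hC', fun i hi => ?_⟩
    have h3 : g γ i < code i ((X ∩ Iio γ) ∩ Iio i) := h2 i hi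
    rw [key i (hC'.1 hi)] at h3
    exact h3

end Pool.Agent.Work.MP_858761_dm
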