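import Pool.Agent.Work.MP_858761_dm.Defs

/-! Block K10: diamond gives the approximating diamond (helper85). -/

set_option autoImplicit false

open Set Cardinal

namespace Pool.Agent.Work.MP_858761_dm

theorem K10_pair (θ : Cardinal.{0}) (h0 : ℵ₀ < θ) : ∃ π : Ordinal.{0} → Ordinal.{0} → Ordinal.{0},
    (∀ i < θ.ord, ∀ y < θ.ord, π i y < θ.ord) ∧
    ∀ i < θ.ord, ∀ y < θ.ord, ∀ j < θ.ord, ∀ z < θ.ord, π i y = π j z → i = j ∧ y = z := by
  classical
  have hc : #(Iio θ.ord × Iio θ.ord) = #(Iio θ.ord) := by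
    have h1 : ℵ₀ ≤ #(Iio θ.ord) := by
      rw [Cardinal.mk_Iio_ordinal, Cardinal.card_ord]
      simpa using h0.le
    rw [Cardinal.mk_prod, Cardinal.lift_id]
    exact Cardinal.mul_eq_self h1
  obtain ⟨e⟩ := Cardinal.eq.1 hc
  have key : ∀ i y : Ordinal.{0}, ∃ z : Ordinal.{0}, ∀ (hi : i ∈ Iio θ.ord) (hy : y ∈ Iio θ.ord),
      z = (e (⟨i, hi⟩, ⟨y, hy⟩) : Ordinal.{0}) := by
    intro i y
    by_cases h : i ∈ Iio θ.ord ∧ y ∈ Iio θ.ord
    · exact ⟨(e (⟨i, h.1⟩, ⟨y, h.2⟩) : Ordinal.{0}), fun _ _ => rfl⟩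
    · exact ⟨0, fun hi hy => absurd ⟨hi, hy⟩ h⟩
  choose π hπ using key
  refine ⟨π, ?_, ?_⟩
  · intro i hi y hy
    rw [hπ i y hi hy]
    exact (e (⟨i, hi⟩, ⟨y, hy⟩)).2
  · intro i hi y hy j hj z hz h
    rw [hπ i y hi hy, hπ j z hj hz] at h
    have h2 := e.injective (Subtype.ext h)
    rw [Prod.mk.injEq, Subtype.mk.injEq, Subtype.mk.injEq] at h2
    exact h2

theorem p_K10 (h7 : S_K7) : S_K10 := by
  classical
  intro θ h0 hr S hS lam hlam hD
  obtain ⟨x, _, hx2⟩ := hD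
  obtain ⟨π, hπ1, hπ2⟩ := K10_pair θ h0
  have hlam0 : ∀ i < θ.ord, 0 < (lam i).ord := fun i hi => by
    rw [Cardinal.lt_ord, Ordinal.card_zero]
    exact (hlam i hi).1
  have hlamθ : ∀ i < θ.ord, (lam i).ord < θ.ord := fun i hi =>
    Cardinal.ord_lt_ord.2 (hlam i hi).2
  have hθ0 : 0 < θ.ord := by
    rw [Cardinal.lt_ord, Ordinal.card_zero]
    exact lt_trans Cardinal.aleph0_pos h0
  refine ⟨fun γ i => if ({y | y < (lam i).ord ∧ π i y ∈ x γ} : Set Ordinal.{0}).Nonempty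
    then sInf {y | y < (lam i).ord ∧ π i y ∈ x γ} else 0, ?_, ?_⟩
  · intro γ hγ i hi
    have hiθ : i < θ.ord := lt_trans hi (hS hγ)
    show (if ({y | y < (lam i).ord ∧ π i y ∈ x γ} : Set Ordinal.{0}).Nonempty
      then sInf {y | y < (lam i).ord ∧ π i y ∈ x γ} else 0) < (lam i).ord
    by_cases hne : ({y | y < (lam i).ord ∧ π i y ∈ x γ} : Set Ordinal.{0}).Nonempty
    · rw [if_pos hne]
      exact (csInf_mem hne).1
    · rw [if_neg hne]
      exact hlam0 i hiθ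
  · intro f hf C hC
    have hE := h7 θ h0 hr (fun _ => C) (fun _ _ => hC)
      (fun α β => max (π α β) (lam α).ord)
      (fun α hα β hβ => max_lt (hπ1 α hα β hβ) (hlamθ α hα))
    have hXs : {z | ∃ i < θ.ord, z = π i (f i)} ⊆ Iio θ.ord := by
      rintro z ⟨i, hi, rfl⟩
      exact hπ1 i hi (f i) (lt_trans (hf i hi) (hlamθ i hi))
    obtain ⟨γ, hγE, hγS, hγx⟩ := hx2 {z | ∃ i < θ.ord, z = π i (f i)} hXs _ hE
    obtain ⟨hγθ, hγ0, hγC, hγG⟩ := hγE
    have hγpos : 0 < γ := pos_iff_ne_zero.2 hγ0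
    refine ⟨γ, hγC 0 hγpos, hγS, ?_⟩
    have hg : ∀ i < γ, (if ({y | y < (lam i).ord ∧ π i y ∈ x γ} : Set Ordinal.{0}).Nonempty
        then sInf {y | y < (lam i).ord ∧ π i y ∈ x γ} else 0) = f i := by
      intro i hi
      have hiθ : i < θ.ord := lt_trans hi hγθ
      have hfi : f i < (lam i).ord := hf i hiθ
      have h1 : (lam i).ord < γ := lt_of_le_of_lt (le_max_right _ _) (hγG i hi 0 hγpos)
      have hfγ : f i < γ := lt_trans hfi h1
      have h2 : π i (f i) < γ := lt_of_le_of_lt (le_max_left _ _) (hγG i hi (f i) hfγ)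
      have hset : {y | y < (lam i).ord ∧ π i y ∈ x γ} = {f i} := by
        ext y
        simp only [Set.mem_ofPred_eq, mem_singleton_iff]
        constructor
        · rintro ⟨hy1, hy2⟩
          rw [← hγx] at hy2
          obtain ⟨⟨j, hj, hjy⟩, _⟩ := hy2
          have h3 := hπ2 i hiθ y (lt_trans hy1 (hlamθ i hiθ)) j hj (f j)
            (lt_trans (hf j hj) (hlamθ j hj)) hjy
          rw [h3.2, ← h3.1]
        · rintro rfl
          refine ⟨hfi, ?_⟩
          rw [← hγx]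
          exact ⟨⟨i, hiθ, rfl⟩, h2⟩
      rw [hset, if_pos (singleton_nonempty _), csInf_singleton]
    rintro (⟨_, a, ha, h⟩ | ⟨_, C', hC', h⟩)
    · have h4 := h a le_rfl ha
      simp only [] at h4
      rw [hg a ha] at h4
      exact lt_irrefl _ h4
    · obtain ⟨i, hi, _⟩ := hC'.2.1 0 hγpos
      have h4 := h i hi
      simp only [] at h4
      rw [hg i (hC'.1 hi)] at h4
      exact lt_irrefl _ h4

end Pool.Agent.Work.MP_858761_dm
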