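import Pool.Agent.Work.MP_858761_dm.Defs

/-!
# K13: a club of singular strong limit cardinals
-/

set_option autoImplicit false

open Set Cardinal

namespace Pool.Agent.Work.MP_858761_dm

theorem p_K13 (h7 : S_K7) : S_K13 := by
  intro θ hθ hreg hsl hnot
  unfold RegStat StatIn at hnot
  push Not at hnot
  obtain ⟨E0, hE0, hE0r⟩ := hnot
  have hG : ∀ α < θ.ord, ∀ β < θ.ord,
      (fun α _ : Ordinal.{0} => ((2 : Cardinal.{0}) ^ α.card).ord) α β < θ.ord := by
    intro α hα β _
    exact ord_lt_ord.2 (hsl.isStrongPrelimit (lt_ord.1 hα))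
  refine ⟨_, h7 θ hθ hreg (fun _ => E0) (fun _ _ => hE0)
    (fun α _ : Ordinal.{0} => ((2 : Cardinal.{0}) ^ α.card).ord) hG, ?_⟩
  rintro γ ⟨hγθ, hγ0, hγD, hγG⟩
  have hpos : 0 < γ := pos_iff_ne_zero.2 hγ0
  have hE : γ ∈ E0 := hγD 0 hpos
  have hγG' : ∀ α < γ, ((2 : Cardinal.{0}) ^ α.card).ord < γ := fun α hα => hγG α hα α hα
  have hcard : γ.card.ord = γ := by
    refine le_antisymm (Cardinal.ord_card_le γ) (not_lt.1 fun hlt => ?_)
    have h1 := hγG' _ hlt
    rw [card_ord] at h1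
    have h2 : (2 : Cardinal.{0}) ^ γ.card ≤ γ.card := by
      have := Ordinal.card_le_card h1.le
      rwa [card_ord] at this
    exact absurd (cantor γ.card) (not_lt.2 h2)
  have hstrong : γ.card.IsStrongLimit := by
    refine ⟨?_, ?_⟩
    · intro h0
      rw [h0] at hcard
      simp at hcard
      exact hγ0 hcard.symm
    · intro x hx
      have h1 : x.ord < γ := by
        rw [← hcard]
        exact ord_lt_ord.2 hx
      have h2 := hγG' _ h1
      rw [card_ord] at h2
      rw [← hcard] at h2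
      exact ord_lt_ord.1 h2
  have hnr : ¬ γ.card.IsRegular := fun h => hE0r γ hE ⟨γ.card, hcard.symm, h⟩
  refine ⟨⟨γ.card, hcard.symm, hstrong, ?_⟩, ?_⟩
  · by_contra hle
    refine hnr ⟨hstrong.aleph0_le, ?_⟩
    rw [hcard]
    exact not_lt.1 hle
  · rw [Ordinal.aleph0_le_cof]
    have := isSuccLimit_ord hstrong.aleph0_le
    rwa [hcard] at this

end Pool.Agent.Work.MP_858761_dm
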