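import Pool.Agent.Work.MP_858761_dm.Defs

set_option autoImplicit false

open Set Cardinal

namespace Pool.Agent.Work.MP_858761_dm

theorem XK14.pos (i : Ordinal.{0}) : 0 < ((2 : Cardinal.{0}) ^ i.card).ord := by
  rw [Cardinal.lt_ord]
  simp only [Ordinal.card_zero]
  exact lt_of_lt_of_le zero_lt_one (Cardinal.one_le_iff_ne_zero.2 (by
    intro h
    have h2 := Cardinal.cantor i.card
    rw [h] at h2
    exact absurd h2 (not_lt.2 zero_le)))

theorem p_K14 (h9 : S_K9) (h10 : S_K10) (h11 : S_K11) (h12 : S_K12) (h13 : S_K13) : S_K14 := by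
  intro θ hθ hreg hstr hnr hsch
  constructor
  · intro h
    obtain ⟨E, hE, hE2⟩ := h13 θ hθ hreg hstr hnr
    have hU : Iio θ.ord = ({γ : Ordinal.{0} | γ < θ.ord ∧ SingStrong γ ∧ ℵ₀ < γ.cof} ∪
        {γ | γ < θ.ord ∧ γ.cof = ℵ₀}) ∪
        {γ | γ < θ.ord ∧ ¬ (SingStrong γ ∧ ℵ₀ < γ.cof) ∧ ¬ γ.cof = ℵ₀} := by
      ext γ
      simp only [mem_Iio, mem_union, Set.mem_ofPred_eq]
      tauto
    rw [hU] at h
    rcases h12 θ hθ hreg _ _ _ h with h | h
    · rcases h12 θ hθ hreg _ _ _ h with h | h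
      · left
        obtain ⟨x, _, hx2⟩ := h9 θ hθ hreg hstr _ (fun γ hγ => hγ.1)
          (fun γ hγ => h11 θ hsch γ hγ.1 hγ.2.1 hγ.2.2) h
        refine ⟨fun γ => x γ ∩ Iio γ, fun γ _ => inter_subset_right, ?_⟩
        intro X hX C hC
        obtain ⟨γ, hγC, hγS, hγX⟩ := hx2 X hX C hC
        refine ⟨γ, hγC, hγS.1, ?_⟩
        change X ∩ Iio γ = x γ ∩ Iio γ
        rw [← hγX]
        ext z
        simp
      · right
        exact h
    · exfalso
      obtain ⟨g, _, hg⟩ := h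
      obtain ⟨γ, hγE, hγ3, _⟩ := hg (fun _ => 0) (fun i _ => XK14.pos i) E hE
      have h5 := hE2 γ hγE
      rcases h5.2.lt_or_eq with h | h
      · exact hγ3.2.1 ⟨h5.1, h⟩
      · exact hγ3.2.2 h.symm
  · rintro (h | h)
    · refine h10 θ hθ hreg (Iio θ.ord) subset_rfl _ (fun i hi => ⟨?_, ?_⟩) h
      · have h1 := XK14.pos i
        rw [Cardinal.lt_ord] at h1
        simpa using h1
      · exact hstr.isStrongPrelimit (Cardinal.lt_ord.1 hi)
    · obtain ⟨g, hg, hg2⟩ := h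
      classical
      refine ⟨fun γ i => if γ < θ.ord ∧ γ.cof = ℵ₀ then g γ i else 0, ?_, ?_⟩
      · intro γ _ i hi
        by_cases hc : γ < θ.ord ∧ γ.cof = ℵ₀
        · simp only [if_pos hc]
          exact hg γ hc i hi
        · simp only [if_neg hc]
          exact XK14.pos i
      · intro f hf C hC
        obtain ⟨γ, hγC, hγS, hγL⟩ := hg2 f hf C hC
        refine ⟨γ, hγC, hγS.1, ?_⟩
        have hc : γ < θ.ord ∧ γ.cof = ℵ₀ := hγS
        have he : (fun i => if γ < θ.ord ∧ γ.cof = ℵ₀ then g γ i else 0) = g γ := by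
          funext i
          rw [if_pos hc]
        change ¬ LtStar γ (fun i => if γ < θ.ord ∧ γ.cof = ℵ₀ then g γ i else 0) f
        rw [he]
        exact hγL

end Pool.Agent.Work.MP_858761_dm
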