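import Pool.Agent.Work.MP_858761_dm.B_K14

set_option autoImplicit false

open Set Cardinal

namespace Pool.Agent.Work.MP_858761_dm

/-- K16: a club of strong limit cardinals. -/
def S_K16 : Prop := ∀ (θ : Cardinal.{0}), ℵ₀ < θ → θ.IsRegular → θ.IsStrongLimit →
  ∃ E : Set Ordinal.{0}, ClubIn θ.ord E ∧ ∀ γ ∈ E, (∃ κ : Cardinal.{0}, γ = κ.ord ∧
    κ.IsStrongLimit) ∧ ℵ₀ ≤ γ.cof

/-- K15: the reduction for all inaccessible `θ`. -/
def S_K15 : Prop := ∀ (θ : Cardinal.{0}), ℵ₀ < θ → θ.IsRegular → θ.IsStrongLimit →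
  SCHBelow θ → (DiamondL θ (fun i => 2 ^ i.card) (Iio θ.ord) ↔
    Diamond θ (Iio θ.ord) ∨ DiamondL θ (fun i => 2 ^ i.card) {γ | γ < θ.ord ∧ γ.cof = ℵ₀} ∨
      DiamondL θ (fun i => 2 ^ i.card)
        {γ | γ < θ.ord ∧ ∃ κ : Cardinal.{0}, γ = κ.ord ∧ κ.IsRegular})

theorem XK15.mono {θ : Cardinal.{0}} {S T : Set Ordinal.{0}} (hST : S ⊆ T)
    (h : DiamondL θ (fun i => 2 ^ i.card) S) : DiamondL θ (fun i => 2 ^ i.card) T := by
  obtain ⟨g, hg, hg2⟩ := h
  classical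
  refine ⟨fun γ i => if γ ∈ S then g γ i else 0, ?_, ?_⟩
  · intro γ _ i hi
    by_cases hc : γ ∈ S
    · simp only [if_pos hc]
      exact hg γ hc i hi
    · simp only [if_neg hc]
      exact XK14.pos i
  · intro f hf C hC
    obtain ⟨γ, hγC, hγS, hγL⟩ := hg2 f hf C hC
    refine ⟨γ, hγC, hST hγS, ?_⟩
    have he : (fun i => if γ ∈ S then g γ i else 0) = g γ := by
      funext i
      rw [if_pos hγS]
    change ¬ LtStar γ (fun i => if γ ∈ S then g γ i else 0) f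
    rw [he]
    exact hγL

theorem XK15.monoD {θ : Cardinal.{0}} {S T : Set Ordinal.{0}} (hST : S ⊆ T)
    (h : Diamond θ S) : Diamond θ T := by
  obtain ⟨x, _, hx2⟩ := h
  refine ⟨fun γ => x γ ∩ Iio γ, fun γ _ => inter_subset_right, ?_⟩
  intro X hX C hC
  obtain ⟨γ, hγC, hγS, hγX⟩ := hx2 X hX C hC
  refine ⟨γ, hγC, hST hγS, ?_⟩
  change X ∩ Iio γ = x γ ∩ Iio γ
  rw [← hγX]
  ext z
  simp

theorem p_K15 (h9 : S_K9) (h10 : S_K10) (h11 : S_K11) (h12 : S_K12) (h16 : S_K16) : S_K15 := by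
  intro θ hθ hreg hstr hsch
  constructor
  · intro h
    obtain ⟨E, hE, hE2⟩ := h16 θ hθ hreg hstr
    have hU : Iio θ.ord = (({γ : Ordinal.{0} | γ < θ.ord ∧ SingStrong γ ∧ ℵ₀ < γ.cof} ∪
        {γ | γ < θ.ord ∧ γ.cof = ℵ₀}) ∪
        {γ | γ < θ.ord ∧ ∃ κ : Cardinal.{0}, γ = κ.ord ∧ κ.IsRegular}) ∪
        {γ | γ < θ.ord ∧ ¬ (SingStrong γ ∧ ℵ₀ < γ.cof) ∧ ¬ γ.cof = ℵ₀ ∧
          ¬ ∃ κ : Cardinal.{0}, γ = κ.ord ∧ κ.IsRegular} := by
      ext γ
      simp only [mem_Iio, mem_union, Set.mem_ofPred_eq]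
      generalize (∃ κ : Cardinal.{0}, γ = κ.ord ∧ κ.IsRegular) = P
      tauto
    rw [hU] at h
    rcases h12 θ hθ hreg _ _ _ h with h | h
    · rcases h12 θ hθ hreg _ _ _ h with h | h
      · rcases h12 θ hθ hreg _ _ _ h with h | h
        · left
          exact XK15.monoD (fun γ hγ => hγ.1) (h9 θ hθ hreg hstr _ (fun γ hγ => hγ.1)
            (fun γ hγ => h11 θ hsch γ hγ.1 hγ.2.1 hγ.2.2) h)
        · right
          left
          exact h
      · right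
        right
        exact h
    · exfalso
      obtain ⟨g, _, hg⟩ := h
      obtain ⟨γ, hγE, hγ3, _⟩ := hg (fun _ => 0) (fun i _ => XK14.pos i) E hE
      obtain ⟨⟨κ, hκ1, hκ2⟩, h5⟩ := hE2 γ hγE
      have hcof : ℵ₀ < γ.cof := lt_of_le_of_ne h5 (fun h => hγ3.2.2.1 h.symm)
      apply hγ3.2.1
      refine ⟨⟨κ, hκ1, hκ2, ?_⟩, hcof⟩
      by_contra hle
      rw [not_lt] at hle
      apply hγ3.2.2.2
      refine ⟨κ, hκ1, hκ2.aleph0_le, ?_⟩
      rw [hκ1] at hle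
      exact hle
  · rintro (h | h | h)
    · refine h10 θ hθ hreg (Iio θ.ord) subset_rfl _ (fun i hi => ⟨?_, ?_⟩) h
      · have h1 := XK14.pos i
        rw [Cardinal.lt_ord] at h1
        simpa using h1
      · exact hstr.isStrongPrelimit (Cardinal.lt_ord.1 hi)
    · exact XK15.mono (fun γ hγ => hγ.1) h
    · exact XK15.mono (fun γ hγ => hγ.1) h

theorem p_K16 (h7 : S_K7) : S_K16 := by
  intro θ hθ hreg hstr
  have h := h7 θ hθ hreg (fun _ => {γ | γ < θ.ord ∧ γ ≠ 0}) ?_ (fun α _ => ((2 : Cardinal.{0}) ^ α.card).ord) ?_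
  · refine ⟨_, h, ?_⟩
    rintro γ ⟨hγθ, hγ0, _, hγG⟩
    have hG : ∀ α < γ, ((2 : Cardinal.{0}) ^ α.card).ord < γ := fun α hα => hγG α hα α hα
    have hord : γ = γ.card.ord := by
      by_contra hne
      have hlt : γ.card.ord < γ := lt_of_le_of_ne (Cardinal.ord_card_le γ) (fun h => hne h.symm)
      have h1 := hG _ hlt
      rw [Cardinal.card_ord] at h1
      have h2 := Ordinal.card_le_card h1.le
      rw [Cardinal.card_ord] at h2
      exact absurd (Cardinal.cantor γ.card) (not_lt.2 h2)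
    have hstr2 : γ.card.IsStrongLimit := by
      refine ⟨?_, ?_⟩
      · intro h0
        rw [h0] at hord
        exact hγ0 (by simpa using hord)
      · intro x hx
        have hx1 : x.ord < γ := by
          rw [hord]
          exact Cardinal.ord_lt_ord.2 hx
        have h1 := hG _ hx1
        rw [Cardinal.card_ord, hord] at h1
        exact Cardinal.ord_lt_ord.1 h1
    refine ⟨⟨γ.card, hord, hstr2⟩, ?_⟩
    rw [hord]
    exact Ordinal.aleph0_le_cof.2 (Cardinal.isSuccLimit_ord hstr2.aleph0_le)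
  · intro ξ _
    refine ⟨fun γ hγ => hγ.1, ?_, ?_⟩
    · intro β hβ
      have h1 := (Cardinal.isSuccLimit_ord hθ.le).succ_lt hβ
      refine ⟨Order.succ β, ⟨h1, ?_⟩, Order.lt_succ β⟩
      exact (lt_of_le_of_lt (bot_le) (Order.lt_succ β)).ne'
    · intro β hβ hβ0 _
      exact ⟨hβ, hβ0⟩
  · intro α hα β _
    exact Cardinal.ord_lt_ord.2 (hstr.isStrongPrelimit (Cardinal.lt_ord.1 hα))

end Pool.Agent.Work.MP_858761_dm
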