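import Pool.Agent.Work.MP_858761_dm.Defs

set_option autoImplicit false

open Set Cardinal

namespace Pool.Agent.Work.MP_858761_dm

namespace XKC

theorem bound {δ : Ordinal.{0}} (hδ : ℵ₀ < δ.cof) (s : ℕ → Ordinal.{0}) (hs : ∀ n, s n < δ) :
    ∃ b < δ, ∀ n, s n < b := by
  refine ⟨⨆ n, s n + 1, ?_, fun n => Ordinal.lt_iSup_add_one s n⟩
  apply Ordinal.lift_iSup_add_one_lt_of_lt_cof _ hs
  simpa using hδ

theorem succ_lt {δ : Ordinal.{0}} (hδ : ℵ₀ < δ.cof) {a : Ordinal.{0}} (ha : a < δ) :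
    a + 1 < δ := by
  obtain ⟨b, hb, hb'⟩ := bound hδ (fun _ => a) (fun _ => ha)
  exact lt_of_le_of_lt (Order.add_one_le_of_lt (hb' 0)) hb

end XKC

theorem p_KC : S_KC := by
  intro δ hδ b hb hmono
  refine ⟨fun γ hγ => hγ.1, ?_, ?_⟩
  · intro β hβ
    let s : ℕ → Ordinal.{0} := fun n => Nat.rec β (fun _ x => max (b x) x + 1) n
    have hs : ∀ n, s n < δ := by
      intro n
      induction n with
      | zero => exact hβ
      | succ n ih =>
        show max (b (s n)) (s n) + 1 < δ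
        exact XKC.succ_lt hδ (max_lt (hb _ ih) ih)
    have hs1 : ∀ n, s n < s (n + 1) := fun n => by
      show s n < max (b (s n)) (s n) + 1
      exact lt_of_le_of_lt (le_max_right _ _) (lt_add_one _)
    have hs2 : ∀ n, b (s n) < s (n + 1) := fun n => by
      show b (s n) < max (b (s n)) (s n) + 1
      exact lt_of_le_of_lt (le_max_left _ _) (lt_add_one _)
    obtain ⟨c, hc, hc'⟩ := XKC.bound hδ s hs
    have hbdd : BddAbove (range s) := ⟨c, by rintro _ ⟨n, rfl⟩; exact (hc' n).le⟩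
    have hle : ∀ n, s n ≤ ⨆ n, s n := fun n => le_ciSup hbdd n
    have hlt : ∀ n, s n < ⨆ n, s n := fun n => (hs1 n).trans_le (hle (n + 1))
    have hex : ∀ x < ⨆ n, s n, ∃ n, x < s n := fun x hx => by
      obtain ⟨n, hn⟩ := exists_lt_of_lt_ciSup hx
      exact ⟨n, hn⟩
    refine ⟨⨆ n, s n, ⟨?_, ?_, ?_, ?_⟩, hlt 0⟩
    · exact lt_of_le_of_lt (ciSup_le fun n => (hc' n).le) hc
    · intro h0
      have := hlt 0
      rw [h0] at this
      exact absurd this (not_lt.2 zero_le)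
    · refine ⟨?_, ?_⟩
      · intro hmin
        have := hlt 0
        exact absurd (hmin this.le) (not_le.2 this)
      · intro a hcov
        obtain ⟨n, hn⟩ := hex a hcov.lt
        exact hcov.2 hn (hlt n)
    · intro ν hν
      obtain ⟨n, hn⟩ := hex ν hν
      exact (lt_of_le_of_lt (hmono ν (s n) hn.le (hs n)) (hs2 n)).trans (hlt (n + 1))
  · intro β hβ h0 hcof
    refine ⟨hβ, h0, ⟨?_, ?_⟩, ?_⟩
    · intro hmin
      have h1 : (0 : Ordinal.{0}) < β := pos_iff_ne_zero.mpr h0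
      exact absurd (hmin h1.le) (not_le.2 h1)
    · intro a hcov
      obtain ⟨x, _, h1, h2⟩ := hcof a hcov.lt
      exact hcov.2 h1 h2
    · intro ν hν
      obtain ⟨x, hx, h1, h2⟩ := hcof ν hν
      exact (hx.2.2.2 ν h1).trans h2

end Pool.Agent.Work.MP_858761_dm
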