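import Mathlib

/-!
# Approximating diamonds: definitions
-/

set_option autoImplicit false

open Set Cardinal

namespace Pool.Agent.Work.MP_858761_dm

/-- `C` is a closed unbounded subset of the ordinal `δ`. -/
def ClubIn (δ : Ordinal.{0}) (C : Set Ordinal.{0}) : Prop :=
  C ⊆ Iio δ ∧ (∀ β < δ, ∃ γ ∈ C, β < γ) ∧
    ∀ β < δ, β ≠ 0 → (∀ γ < β, ∃ x ∈ C, γ < x ∧ x < β) → β ∈ C

/-- `T` meets every closed unbounded subset of `δ`. -/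
def StatIn (δ : Ordinal.{0}) (T : Set Ordinal.{0}) : Prop :=
  ∀ C : Set Ordinal.{0}, ClubIn δ C → ∃ x ∈ C, x ∈ T

/-- `g <* f` on `δ`: `g(α) < f(α)` on a final segment of `δ` if `cf(δ) = ω`, on a closed unbounded
subset of `δ` if `cf(δ) > ω`. -/
def LtStar (δ : Ordinal.{0}) (g f : Ordinal.{0} → Ordinal.{0}) : Prop :=
  (δ.cof = ℵ₀ ∧ ∃ a < δ, ∀ i, a ≤ i → i < δ → g i < f i) ∨
    (ℵ₀ < δ.cof ∧ ∃ C : Set Ordinal.{0}, ClubIn δ C ∧ ∀ i ∈ C, g i < f i)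

/-- `♦_λ(S)`: a sequence `g γ ∈ ∏_{i < γ} λ_i`, `γ ∈ S`, such that for every
`f ∈ ∏_{i < θ} λ_i` the set of `γ ∈ S` with not `g γ <* f` is stationary in `θ`. -/
def DiamondL (θ : Cardinal.{0}) (lam : Ordinal.{0} → Cardinal.{0}) (S : Set Ordinal.{0}) : Prop :=
  ∃ g : Ordinal.{0} → Ordinal.{0} → Ordinal.{0}, (∀ γ ∈ S, ∀ i < γ, g γ i < (lam i).ord) ∧
    ∀ f : Ordinal.{0} → Ordinal.{0}, (∀ i < θ.ord, f i < (lam i).ord) →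
      StatIn θ.ord {γ | γ ∈ S ∧ ¬ LtStar γ (g γ) f}

/-- `♦(S)`. -/
def Diamond (θ : Cardinal.{0}) (S : Set Ordinal.{0}) : Prop :=
  ∃ x : Ordinal.{0} → Set Ordinal.{0}, (∀ γ ∈ S, x γ ⊆ Iio γ) ∧
    ∀ X : Set Ordinal.{0}, X ⊆ Iio θ.ord → StatIn θ.ord {γ | γ ∈ S ∧ X ∩ Iio γ = x γ}

/-- `γ` is a singular strong limit cardinal of uncountable cofinality and `2^|i| = |i|^+` for a
closed unbounded set of `i < γ`. -/
def Nice (γ : Ordinal.{0}) : Prop :=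
  ∃ κ : Cardinal.{0}, γ = κ.ord ∧ κ.IsStrongLimit ∧ ℵ₀ < γ.cof ∧ γ.cof < κ ∧
    ∃ C : Set Ordinal.{0}, ClubIn γ C ∧ ∀ i ∈ C, (2 : Cardinal.{0}) ^ i.card = Order.succ i.card

/-- `code i` is an injection of the subsets of `i` into the ordinals below `2^|i|`. -/
def IsCode (code : Ordinal.{0} → Set Ordinal.{0} → Ordinal.{0}) : Prop :=
  ∀ i : Ordinal.{0}, (∀ A : Set Ordinal.{0}, A ⊆ Iio i → code i A < ((2 : Cardinal.{0}) ^ i.card).ord) ∧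
    ∀ A B : Set Ordinal.{0}, A ⊆ Iio i → B ⊆ Iio i → code i A = code i B → A = B

/-- `γ` is a singular strong limit cardinal. -/
def SingStrong (γ : Ordinal.{0}) : Prop :=
  ∃ κ : Cardinal.{0}, γ = κ.ord ∧ κ.IsStrongLimit ∧ γ.cof < κ

/-- The singular cardinals hypothesis below `θ`, for strong limit cardinals. -/
def SCHBelow (θ : Cardinal.{0}) : Prop :=
  ∀ κ : Cardinal.{0}, κ < θ → κ.IsStrongLimit → κ.ord.cof < κ →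
    (2 : Cardinal.{0}) ^ κ = Order.succ κ

/-- The regular cardinals below `θ` are stationary in `θ`. -/
def RegStat (θ : Cardinal.{0}) : Prop :=
  StatIn θ.ord {γ | ∃ κ : Cardinal.{0}, γ = κ.ord ∧ κ.IsRegular}

/-- KC: closure points of a monotone function. -/
def S_KC : Prop := ∀ (δ : Ordinal.{0}), ℵ₀ < δ.cof → ∀ b : Ordinal.{0} → Ordinal.{0},
  (∀ ν < δ, b ν < δ) → (∀ ν ν' : Ordinal.{0}, ν ≤ ν' → ν' < δ → b ν ≤ b ν') →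
  ClubIn δ {γ | γ < δ ∧ γ ≠ 0 ∧ Order.IsSuccLimit γ ∧ ∀ ν < γ, b ν < γ}

/-- K0: the intersection of two closed unbounded sets. -/
def S_K0 : Prop := ∀ (δ : Ordinal.{0}), ℵ₀ < δ.cof → ∀ C D : Set Ordinal.{0}, ClubIn δ C →
  ClubIn δ D → ClubIn δ (C ∩ D)

/-- K1: a regressive function on a stationary set is bounded on an unbounded set. -/
def S_K1 : Prop := ∀ (δ : Ordinal.{0}), ℵ₀ < δ.cof → ∀ T : Set Ordinal.{0}, T ⊆ Iio δ →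
  StatIn δ T → ∀ h : Ordinal.{0} → Ordinal.{0}, (∀ i ∈ T, h i < i) →
  ∃ ν < δ, ∀ β < δ, ∃ i ∈ T, β < i ∧ h i < ν

/-- K2: a small closed unbounded set. -/
def S_K2 : Prop := ∀ (δ : Ordinal.{0}), ℵ₀ < δ.cof →
  ∃ R : Set Ordinal.{0}, ClubIn δ R ∧ #R ≤ Cardinal.lift.{1} δ.cof

/-- K3: the counting lemma. -/
def S_K3 : Prop := ∀ (κ : Cardinal.{0}), κ.IsStrongLimit → ∀ R : Set Ordinal.{0}, R ⊆ Iio κ.ord →
  #R < Cardinal.lift.{1} κ → ∀ (ix : Ordinal.{0} → Set Ordinal.{0} → Ordinal.{0})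
  (Pf : Ordinal.{0} → Set (Set Ordinal.{0})),
  (∀ i ∈ R, ∀ A ∈ Pf i, ∀ B ∈ Pf i, ix i A = ix i B → A = B) →
  #{B : Set Ordinal.{0} | B ⊆ Iio κ.ord ∧ ∃ ν < κ.ord, ∀ β < κ.ord, ∃ i ∈ R, β < i ∧
    B ∩ Iio i ∈ Pf i ∧ ix i (B ∩ Iio i) < ν} ≤ Cardinal.lift.{1} κ

/-- K4: codes exist. -/
def S_K4 : Prop := ∃ code : Ordinal.{0} → Set Ordinal.{0} → Ordinal.{0}, IsCode code

/-- K5: the ordinals up to `x < |i|^+` are injected into `i`. -/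
def S_K5 : Prop := ∀ i x : Ordinal.{0}, Ordinal.omega0 ≤ i → x < (Order.succ i.card).ord →
  ∃ e : Ordinal.{0} → Ordinal.{0}, (∀ y ≤ x, e y < i) ∧ ∀ y ≤ x, ∀ z ≤ x, e y = e z → y = z

/-- K6: the local theorem (Silver). -/
def S_K6 : Prop := ∀ (code : Ordinal.{0} → Set Ordinal.{0} → Ordinal.{0}), IsCode code →
  ∀ γ : Ordinal.{0}, Nice γ → ∀ g : Ordinal.{0} → Ordinal.{0},
  (∀ i < γ, g i < ((2 : Cardinal.{0}) ^ i.card).ord) →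
  ∃ A : Set (Set Ordinal.{0}), #A ≤ Cardinal.lift.{1} γ.card ∧
    ∀ B : Set Ordinal.{0}, B ⊆ Iio γ → ¬ LtStar γ g (fun i => code i (B ∩ Iio i)) → B ∈ A

/-- K7: diagonal intersections. -/
def S_K7 : Prop := ∀ (θ : Cardinal.{0}), ℵ₀ < θ → θ.IsRegular → ∀ D : Ordinal.{0} → Set Ordinal.{0},
  (∀ ξ < θ.ord, ClubIn θ.ord (D ξ)) → ∀ G : Ordinal.{0} → Ordinal.{0} → Ordinal.{0},
  (∀ α < θ.ord, ∀ β < θ.ord, G α β < θ.ord) →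
  ClubIn θ.ord {γ | γ < θ.ord ∧ γ ≠ 0 ∧ (∀ ξ < γ, γ ∈ D ξ) ∧ ∀ α < γ, ∀ β < γ, G α β < γ}

/-- K8: Kunen's theorem. -/
def S_K8 : Prop := ∀ (θ : Cardinal.{0}), ℵ₀ < θ → θ.IsRegular → ∀ (S : Set Ordinal.{0})
  (A : Ordinal.{0} → Set (Set Ordinal.{0})), S ⊆ Iio θ.ord →
  (∀ γ ∈ S, #(A γ) ≤ Cardinal.lift.{1} γ.card) →
  (∀ X : Set Ordinal.{0}, X ⊆ Iio θ.ord → StatIn θ.ord {γ | γ ∈ S ∧ X ∩ Iio γ ∈ A γ}) →
  Diamond θ S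

/-- K9: the theorem. -/
def S_K9 : Prop := ∀ (θ : Cardinal.{0}), ℵ₀ < θ → θ.IsRegular → θ.IsStrongLimit →
  ∀ S : Set Ordinal.{0}, S ⊆ Iio θ.ord → (∀ γ ∈ S, Nice γ) →
  DiamondL θ (fun i => 2 ^ i.card) S → Diamond θ S

/-- K10: the converse, for all `S` and all `λ`. -/
def S_K10 : Prop := ∀ (θ : Cardinal.{0}), ℵ₀ < θ → θ.IsRegular → ∀ S : Set Ordinal.{0},
  S ⊆ Iio θ.ord → ∀ lam : Ordinal.{0} → Cardinal.{0}, (∀ i < θ.ord, 0 < lam i ∧ lam i < θ) →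
  Diamond θ S → DiamondL θ lam S

/-- K11: the singular cardinals hypothesis gives nice ordinals. -/
def S_K11 : Prop := ∀ (θ : Cardinal.{0}), SCHBelow θ → ∀ γ < θ.ord, SingStrong γ →
  ℵ₀ < γ.cof → Nice γ

/-- K12: splitting. -/
def S_K12 : Prop := ∀ (θ : Cardinal.{0}), ℵ₀ < θ → θ.IsRegular →
  ∀ lam : Ordinal.{0} → Cardinal.{0}, ∀ S T : Set Ordinal.{0},
  DiamondL θ lam (S ∪ T) → DiamondL θ lam S ∨ DiamondL θ lam T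

/-- K13: a club of singular strong limit cardinals. -/
def S_K13 : Prop := ∀ (θ : Cardinal.{0}), ℵ₀ < θ → θ.IsRegular → θ.IsStrongLimit → ¬ RegStat θ →
  ∃ E : Set Ordinal.{0}, ClubIn θ.ord E ∧ ∀ γ ∈ E, SingStrong γ ∧ ℵ₀ ≤ γ.cof

/-- K14: the reduction to cofinality `ω`. -/
def S_K14 : Prop := ∀ (θ : Cardinal.{0}), ℵ₀ < θ → θ.IsRegular → θ.IsStrongLimit → ¬ RegStat θ →
  SCHBelow θ → (DiamondL θ (fun i => 2 ^ i.card) (Iio θ.ord) ↔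
    Diamond θ (Iio θ.ord) ∨ DiamondL θ (fun i => 2 ^ i.card) {γ | γ < θ.ord ∧ γ.cof = ℵ₀})

end Pool.Agent.Work.MP_858761_dm
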